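import Pool.Agent.Run7.h385.PQ.Stm
import Pool.Agent.Run7.h871.PO.DIFF

set_option autoImplicit false

/-! Piece DIFF2 of project PQ (helper385): the von Mangoldt function against its sieve model along the values of
random polynomials at arguments of a power of the height. -/

namespace Pool.Agent.Run7.h376.PQ

open Finset
open Pool.Agent.H373R2.T7
open Pool.Agent.H807R2.Dav
open Pool.Agent.Run7.h385.PO
open Pool.Agent.Run7.h385.PQ
open Pool.Agent.Run7.h871.PO (telesc lamz_le_inv)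

theorem ev_abs2 {d : ℕ} (W : ℕ) (t : Fin d → ℤ) (n : ℕ) (T P : ℝ) (hT : 0 ≤ T) (hP : 1 ≤ P)
    (hn : (n : ℝ) ≤ P) (ht : ∀ j, |(t j : ℝ)| ≤ T) :
    |((ev W t n : ℤ) : ℝ)| ≤ W * (d * (T * P ^ (d - 1))) := by
  unfold ev
  push_cast
  rw [abs_mul, Nat.abs_cast]
  refine mul_le_mul_of_nonneg_left ?_ (Nat.cast_nonneg _)
  refine (abs_sum_le_sum_abs _ _).trans ?_
  have h1 : ∀ j ∈ (univ : Finset (Fin d)), |(t j : ℝ) * (n : ℝ) ^ (j : ℕ)| ≤ T * P ^ (d - 1) := by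
    intro j _
    rw [abs_mul, abs_of_nonneg (by positivity : (0 : ℝ) ≤ (n : ℝ) ^ (j : ℕ))]
    refine mul_le_mul (ht j) ?_ (by positivity) hT
    exact (pow_le_pow_left₀ (Nat.cast_nonneg _) hn _).trans (pow_le_pow_right₀ hP (by omega))
  refine (sum_le_sum h1).trans ?_
  rw [sum_const, card_univ, Fintype.card_fin, nsmul_eq_mul]

/-- the shift term -/
theorem num_shift (e k C C3 U : ℕ) (L X Q S N Ym P1 : ℝ) (hL1 : 1 ≤ L) (hX : 0 < X) (hQ : 0 < Q)
    (hC3 : C * e + C + k + (U + 2) ≤ C3) (_hS0 : 0 ≤ S) (hS : S ≤ X / (Q * L ^ C3))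
    (hP1 : P1 ^ e = Q) (_hP10 : 0 ≤ P1)
    (hN0 : 0 ≤ N) (hN : N + 1 ≤ 2 * (P1 * L ^ C)) (hYm : X / L ^ C ≤ Ym) (D : ℝ) (hD : 0 ≤ D) :
    2 * D * (2 * S * (N + 1) ^ e / Ym) * (2 * L) ^ k ≤ D * 2 ^ (e + k + 2) / L ^ (U + 2) := by
  have hL0 : 0 < L := by linarith
  have hYm0 : 0 < Ym := lt_of_lt_of_le (by positivity) hYm
  have a1 : (N + 1) ^ e ≤ 2 ^ e * (Q * L ^ (C * e)) := by
    have h := pow_le_pow_left₀ (by linarith) hN e
    rwa [mul_pow, mul_pow, hP1, ← pow_mul] at h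
  have a2 : S * (N + 1) ^ e / Ym ≤ (X / (Q * L ^ C3)) * (2 ^ e * (Q * L ^ (C * e))) / (X / L ^ C) := by
    apply div_le_div₀ (by positivity) _ (by positivity) hYm
    exact mul_le_mul hS a1 (by positivity) (by positivity)
  have a3 : (X / (Q * L ^ C3)) * (2 ^ e * (Q * L ^ (C * e))) / (X / L ^ C) =
      2 ^ e * (L ^ (C * e + C) / L ^ C3) := by
    rw [pow_add]
    field_simp
  have a4 : L ^ (C * e + C) / L ^ C3 ≤ 1 / (L ^ k * L ^ (U + 2)) := by
    rw [div_le_div_iff₀ (by positivity) (by positivity), one_mul, ← pow_add, ← pow_add]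
    exact pow_le_pow_right₀ hL1 (by omega)
  have a5 : 2 * D * (2 * S * (N + 1) ^ e / Ym) * (2 * L) ^ k =
      (4 * D * (2 * L) ^ k) * (S * (N + 1) ^ e / Ym) := by ring
  rw [a5]
  have a6 : S * (N + 1) ^ e / Ym ≤ 2 ^ e * (1 / (L ^ k * L ^ (U + 2))) :=
    (a2.trans a3.le).trans (mul_le_mul_of_nonneg_left a4 (by positivity))
  refine (mul_le_mul_of_nonneg_left a6 (by positivity)).trans (le_of_eq ?_)
  rw [mul_pow]
  field_simp
  ring

/-- the main term -/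
theorem num_main (e k C C1 U U' : ℕ) (L X Q K S S' W H lK Yd nd : ℝ) (hL1 : 1 ≤ L) (hX : 0 < X) (hQ : 0 < Q)
    (hU' : U' = 2 * k + C1 + 1 + C * e + C + (U + 2)) (hS0 : 0 < S) (_hK0 : 0 ≤ K)
    (hK : K ≤ 2 * X * Q * L ^ C1) (hW0 : 0 ≤ W) (hW : W ≤ L) (hH0 : 0 ≤ H) (hH : H ≤ 2 * L ^ C)
    (hS' : S' = 2 * W * S * H ^ e) (hlK : L ≤ lK) (hYd : X / L ^ C ≤ Yd) (hnd : Q ≤ nd) :
    (2 * L) ^ (2 * k) / S * (2 * (K * S' / lK ^ U') / (Yd * nd)) ≤ 4 ^ k * 2 ^ (e + 3) / L ^ (U + 2) := by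
  have hL0 : 0 < L := by linarith
  have hlK0 : 0 < lK := by linarith
  have hYd0 : 0 < Yd := lt_of_lt_of_le (by positivity) hYd
  have b1 : S' ≤ 2 * L * S * (2 ^ e * L ^ (C * e)) := by
    rw [hS']
    have h1 : H ^ e ≤ 2 ^ e * L ^ (C * e) := by
      have h := pow_le_pow_left₀ hH0 hH e
      rwa [mul_pow, ← pow_mul] at h
    apply mul_le_mul _ h1 (by positivity) (by positivity)
    apply mul_le_mul_of_nonneg_right _ hS0.le
    linarith
  have hS'0 : 0 ≤ S' := by rw [hS']; positivity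
  have b2 : K * S' / lK ^ U' ≤ (2 * X * Q * L ^ C1) * (2 * L * S * (2 ^ e * L ^ (C * e))) / L ^ U' := by
    apply div_le_div₀ (by positivity) _ (by positivity) (pow_le_pow_left₀ hL0.le hlK _)
    exact mul_le_mul hK b1 hS'0 (by positivity)
  have b3 : 2 * (K * S' / lK ^ U') / (Yd * nd) ≤
      2 * ((2 * X * Q * L ^ C1) * (2 * L * S * (2 ^ e * L ^ (C * e))) / L ^ U') / (X / L ^ C * Q) := by
    apply div_le_div₀ (by positivity) _ (by positivity)
    · exact mul_le_mul hYd hnd hQ.le hYd0.le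
    · exact mul_le_mul_of_nonneg_left b2 (by norm_num)
  refine (mul_le_mul_of_nonneg_left b3 (by positivity)).trans (le_of_eq ?_)
  have e4 : (2 * L) ^ (2 * k) = 4 ^ k * L ^ (2 * k) := by
    rw [mul_pow, pow_mul 2 2 k]
    norm_num
  rw [e4, hU', pow_add L (2 * k + C1 + 1 + C * e + C), pow_add L (2 * k + C1 + 1 + C * e),
    pow_add L (2 * k + C1 + 1), pow_add L (2 * k + C1), pow_add L (2 * k)]
  field_simp
  ring

theorem t_DIFF2 (hTERM : S_TERM2) (hDIST : S_DIST) (hSUPT : S_SUPT) : S_DIFF2 := by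
  intro d k C U hd hk
  obtain ⟨e, he⟩ : ∃ e, e = d - 1 := ⟨_, rfl⟩
  have hde : d = e + 1 := by omega
  have he1 : 1 ≤ e := by omega
  obtain ⟨C1, hC1⟩ : ∃ C1, C1 = C * d + C + 3 := ⟨_, rfl⟩
  obtain ⟨U', hU'⟩ : ∃ U', U' = 2 * k + C1 + 1 + C * e + C + (U + 2) := ⟨_, rfl⟩
  obtain ⟨B0, hB0⟩ := hSUPT U'
  obtain ⟨C3, hC3⟩ : ∃ C3, C3 = C * d + C + k + U + B0 + 10 := ⟨_, rfl⟩
  refine ⟨2 * C1 + 3 * B0 + 3 * C3 + 10, fun E => ?_⟩
  obtain ⟨N0, hN0⟩ := hB0 E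
  obtain ⟨N1, hN1⟩ := Vz_inv_small E
  obtain ⟨x1, hx1⟩ := ev_L' (max (max ((2 : ℝ) ^ (d + B0)) (2 * d + 1))
    (max ((32 : ℝ) * 8 ^ B0) ((k : ℝ) * (4 ^ k * 2 ^ (e + 3) + d * 2 ^ (e + k + 2)))))
  refine ⟨max (max N0 N1) (max x1 3), fun X hX z hz1 hz2 m hm n hn hnC W hW1 hW u hu Y hY => ?_⟩
  rw [← he] at hm hu
  have hXN0 : N0 ≤ X := le_trans (le_trans (le_max_left _ _) (le_max_left _ _)) hX
  have hXN1 : N1 ≤ X := le_trans (le_trans (le_max_right _ _) (le_max_left _ _)) hX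
  have hLbig := hx1 X (le_trans (le_trans (le_max_left _ _) (le_max_right _ _)) hX)
  have hX3 : 3 ≤ X := le_trans (le_trans (le_max_right _ _) (le_max_right _ _)) hX
  have hX3r : (3 : ℝ) ≤ X := by exact_mod_cast hX3
  have hX0 : (0 : ℝ) < X := by linarith
  set L : ℝ := Real.log X with hLd
  have hLB : (2 : ℝ) ^ (d + B0) ≤ L := le_trans (le_trans (le_max_left _ _) (le_max_left _ _)) hLbig
  have hLd1 : (2 : ℝ) * d + 1 ≤ L := le_trans (le_trans (le_max_right _ _) (le_max_left _ _)) hLbig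
  have hLd2 : (32 : ℝ) * 8 ^ B0 ≤ L := le_trans (le_trans (le_max_left _ _) (le_max_right _ _)) hLbig
  have hLc : (k : ℝ) * (4 ^ k * 2 ^ (e + 3) + d * 2 ^ (e + k + 2)) ≤ L :=
    le_trans (le_trans (le_max_right _ _) (le_max_right _ _)) hLbig
  have hd1 : (2 : ℝ) ≤ d := by exact_mod_cast hd
  have hL5 : 5 ≤ L := by linarith
  have hL1 : 1 ≤ L := by linarith
  have hL0 : 0 < L := by linarith
  have hLp : ∀ n, 0 < L ^ n := fun n => by positivity
  have hLB0 : (2 : ℝ) ^ B0 ≤ L := le_trans (pow_le_pow_right₀ (by norm_num) (by omega)) hLB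
  have hLd' : (2 : ℝ) ^ d ≤ L := le_trans (pow_le_pow_right₀ (by norm_num) (by omega)) hLB
  -- the size of the arguments
  obtain ⟨P1, hP1⟩ : ∃ P1 : ℝ, P1 = (m : ℝ) + 1 := ⟨_, rfl⟩
  have hP11 : 1 ≤ P1 := by rw [hP1]; linarith [(Nat.cast_nonneg m : (0 : ℝ) ≤ m)]
  obtain ⟨Q, hQ⟩ : ∃ Q : ℝ, Q = P1 ^ e := ⟨_, rfl⟩
  have hQ1 : 1 ≤ Q := by rw [hQ]; exact one_le_pow₀ hP11
  have hQ0 : 0 < Q := by linarith
  rw [← hP1] at hm hu
  rw [← hQ] at hu
  have hm5 : Q ^ 5 * L ^ (2 * C1 + 3 * B0 + 3 * C3 + 10) ≤ X := by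
    rw [hQ, ← pow_mul, mul_comm e 5]
    exact hm
  have hQL : ∀ a b : ℕ, a ≤ 5 → b ≤ 2 * C1 + 3 * B0 + 3 * C3 + 10 → Q ^ a * L ^ b ≤ X := by
    intro a b ha hb
    refine le_trans ?_ hm5
    exact mul_le_mul (pow_le_pow_right₀ hQ1 ha) (pow_le_pow_right₀ hL1 hb) (hLp _).le (by positivity)
  have hmC : (m : ℝ) + L ^ C ≤ P1 * L ^ C := by
    rw [hP1]
    have h1 : 1 ≤ L ^ C := one_le_pow₀ hL1
    have h2 : (0 : ℝ) ≤ m := Nat.cast_nonneg _
    have h3 := mul_le_mul_of_nonneg_left h1 h2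
    rw [add_mul, one_mul]
    linarith
  have hnP : ∀ i, (n i : ℝ) ≤ P1 * L ^ C := fun i => (hnC i).2.trans hmC
  have hPL1 : 1 ≤ P1 * L ^ C := one_le_mul_of_one_le_of_one_le hP11 (one_le_pow₀ hL1)
  have hPLe : (P1 * L ^ C) ^ (d - 1) = Q * L ^ (C * e) := by
    rw [← he, mul_pow, ← hQ, ← pow_mul]
  -- the parameter K
  set K : ℕ := ⌈(X : ℝ) * Q * L ^ C1⌉₊ with hKd
  have hXQ : (X : ℝ) ≤ X * Q := le_mul_of_one_le_right hX0.le hQ1
  have hXL1 : (X : ℝ) * Q ≤ X * Q * L ^ C1 := le_mul_of_one_le_right (by positivity) (one_le_pow₀ hL1)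
  have hKle : (X : ℝ) * Q * L ^ C1 ≤ K := Nat.le_ceil _
  have hXK : (X : ℝ) ≤ K := hXQ.trans (hXL1.trans hKle)
  have hXKn : X ≤ K := by exact_mod_cast hXK
  have hK2 : (K : ℝ) ≤ 2 * X * Q * L ^ C1 := by
    have h1 := (Nat.ceil_lt_add_one (show (0 : ℝ) ≤ (X : ℝ) * Q * L ^ C1 by positivity)).le
    rw [← hKd] at h1
    have h2 : 3 ≤ (X : ℝ) * Q * L ^ C1 := hX3r.trans (hXQ.trans hXL1)
    linarith
  have hKsq : (K : ℝ) ≤ (X : ℝ) ^ 2 := by
    have h1 := hQL 1 (C1 + 1) (by norm_num) (by omega)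
    rw [pow_one] at h1
    have h2 : 2 * (X : ℝ) * Q * L ^ C1 ≤ X * (Q * L ^ (C1 + 1)) := by
      have h3 : L ^ (C1 + 1) = L ^ C1 * L := pow_succ _ _
      rw [h3]
      have h4 : 2 * (X : ℝ) * Q * L ^ C1 = X * (Q * (L ^ C1 * 2)) := by ring
      rw [h4]
      gcongr
      linarith
    refine hK2.trans (h2.trans ?_)
    rw [sq]
    exact mul_le_mul_of_nonneg_left h1 hX0.le
  have hK0 : (0 : ℝ) < K := by linarith
  have hlKle : Real.log K ≤ 2 * L := by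
    have h1 := Real.log_le_log hK0 hKsq
    rw [Real.log_pow] at h1
    push_cast at h1
    exact h1
  have hlKge : L ≤ Real.log K := Real.log_le_log hX0 hXK
  have hlKB : Real.log K ^ B0 ≤ 2 ^ B0 * L ^ B0 := by
    have h1 : Real.log K ^ B0 ≤ (2 * L) ^ B0 := pow_le_pow_left₀ (by linarith) hlKle _
    rwa [mul_pow] at h1
  -- z
  have hz1' : Real.log K ^ B0 ≤ z := by
    refine le_trans (hlKB.trans ?_) hz1
    have h2 : (2 : ℝ) ^ B0 * L ^ B0 ≤ L ^ (B0 + 1) := by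
      rw [pow_succ, mul_comm (L ^ B0) L]
      exact mul_le_mul_of_nonneg_right hLB0 (by positivity)
    exact h2.trans (pow_le_pow_right₀ hL1 (by omega))
  have hz2' : (z : ℝ) ≤ Real.log K ^ E := hz2.trans (pow_le_pow_left₀ hL0.le hlKge _)
  have hz : 1 ≤ z := by
    have h1 : (1 : ℝ) ≤ z := (one_le_pow₀ hL1).trans hz1
    exact_mod_cast h1
  have hVz : (Vz z)⁻¹ ≤ L := hN1 X hXN1 z hz hz2
  -- bounds for the functions
  have hLam : ∀ m : ℤ, |m| ≤ K → ArithmeticFunction.vonMangoldt m.natAbs ≤ 2 * L := by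
    intro m hm
    rcases Nat.eq_zero_or_pos m.natAbs with h0 | h0
    · rw [h0, ArithmeticFunction.map_zero]
      positivity
    · have h1 : (m.natAbs : ℝ) ≤ K := by
        have h2 : m.natAbs ≤ K := by
          have h3 := hm
          rw [Int.abs_eq_natAbs] at h3
          exact_mod_cast h3
        exact_mod_cast h2
      exact ArithmeticFunction.vonMangoldt_le_log.trans
        ((Real.log_le_log (by exact_mod_cast h0) h1).trans hlKle)
  have hLam0 : ∀ m : ℕ, 0 ≤ ArithmeticFunction.vonMangoldt m :=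
    fun m => ArithmeticFunction.vonMangoldt_nonneg
  have hlz : ∀ m : ℕ, lamz z m ≤ 2 * L := fun m => (lamz_le_inv z m).trans (by linarith)
  have hlz0 : ∀ m : ℕ, 0 ≤ lamz z m := fun m => lamz_nonneg z m
  -- the other parameters
  set S : ℕ := ⌊(X : ℝ) / (Q * L ^ C3)⌋₊ with hSd
  set N : ℕ := ⌊(m : ℝ) + L ^ C⌋₊ with hNd
  set H : ℕ := ⌈L ^ C⌉₊ with hHd
  set Ym : ℕ := ⌈(X : ℝ) / L ^ C⌉₊ with hYmd
  set S' : ℕ := 2 * W * S * H ^ (d - 1) with hS'd
  have hC3X : 1 ≤ (X : ℝ) / (Q * L ^ C3) := by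
    rw [one_le_div (by positivity)]
    have := hQL 1 C3 (by norm_num) (by omega)
    rwa [pow_one] at this
  have hS2 : (S : ℝ) ≤ X / (Q * L ^ C3) := Nat.floor_le (by positivity)
  have hSpos : 1 ≤ S := by
    rw [hSd]
    exact Nat.le_floor (by simpa using hC3X)
  have hSr : (1 : ℝ) ≤ S := by exact_mod_cast hSpos
  have hS1 : (X : ℝ) / (2 * (Q * L ^ C3)) ≤ S := by
    have h1 := Nat.lt_floor_add_one ((X : ℝ) / (Q * L ^ C3))
    have h4 : (X : ℝ) / (2 * (Q * L ^ C3)) = (X / (Q * L ^ C3)) / 2 := by ring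
    rw [h4]
    linarith
  have hH1 : 1 ≤ H := by
    have h1 : (1 : ℝ) ≤ H := (one_le_pow₀ hL1).trans (Nat.le_ceil _)
    exact_mod_cast h1
  have hH2 : (H : ℝ) ≤ 2 * L ^ C := by
    have h1 := (Nat.ceil_lt_add_one (show (0 : ℝ) ≤ L ^ C by positivity)).le
    rw [← hHd] at h1
    have h2 : 1 ≤ L ^ C := one_le_pow₀ hL1
    linarith
  have hHr : (1 : ℝ) ≤ H := by exact_mod_cast hH1
  have hnN : ∀ i, n i ≤ N := fun i => Nat.le_floor (hnC i).2
  have hnH : ∀ i j, |(n i : ℤ) - n j| ≤ H := by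
    have key : ∀ i j, (n i : ℤ) - n j ≤ H := by
      intro i j
      have h1 : (n i : ℝ) - n j ≤ H := by
        have h2 := (hnC i).2
        have h3 : (m : ℝ) ≤ n j := by exact_mod_cast (hnC j).1.le
        have h4 : L ^ C ≤ H := Nat.le_ceil _
        linarith
      exact_mod_cast h1
    intro i j
    rw [abs_le]
    exact ⟨by linarith [key j i], key i j⟩
  have hNle : (N : ℝ) + 1 ≤ 2 * (P1 * L ^ C) := by
    have h1 : (N : ℝ) ≤ m + L ^ C := Nat.floor_le (by positivity)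
    linarith
  have hYm : ∀ j, Ym ≤ Y j := fun j => Nat.ceil_le.2 (hY j).1
  have hYmge : (X : ℝ) / L ^ C ≤ Ym := Nat.le_ceil _
  have hSN : 2 * S * (N + 1) ^ (d - 1) ≤ Ym := by
    have h1 : (2 : ℝ) * S * ((N : ℝ) + 1) ^ (d - 1) ≤ Ym := by
      have a1 : ((N : ℝ) + 1) ^ (d - 1) ≤ 2 ^ e * (Q * L ^ (C * e)) := by
        have h := pow_le_pow_left₀ (by positivity : (0 : ℝ) ≤ (N : ℝ) + 1) hNle (d - 1)
        rw [mul_pow, hPLe] at h
        rwa [← he] at h ⊢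
      have a2 : (2 : ℝ) * S * ((N : ℝ) + 1) ^ (d - 1) ≤ 2 * (X / (Q * L ^ C3)) * (2 ^ e * (Q * L ^ (C * e))) :=
        mul_le_mul (by linarith) a1 (by positivity) (by positivity)
      refine a2.trans (le_trans ?_ hYmge)
      have a3 : 2 * (X / (Q * L ^ C3)) * (2 ^ e * (Q * L ^ (C * e))) = X * (2 ^ (e + 1) * L ^ (C * e)) / L ^ C3 := by
        rw [pow_succ]
        field_simp
      rw [a3, div_le_div_iff₀ (by positivity) (by positivity)]
      have a4 : 2 ^ (e + 1) * L ^ (C * e) * L ^ C ≤ L ^ C3 := by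
        have a6 : 2 ^ (e + 1) * L ^ (C * e) * L ^ C ≤ L * L ^ (C * e) * L ^ C := by
          rw [hde] at hLd'
          gcongr
        refine a6.trans ?_
        have a7 : L * L ^ (C * e) * L ^ C = L ^ (1 + C * e + C) := by
          rw [pow_add, pow_add, pow_one]
        rw [a7]
        apply pow_le_pow_right₀ hL1
        rw [hC3, hde, mul_add]
        omega
      calc X * (2 ^ (e + 1) * L ^ (C * e)) * L ^ C = X * (2 ^ (e + 1) * L ^ (C * e) * L ^ C) := by ring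
        _ ≤ X * L ^ C3 := mul_le_mul_of_nonneg_left a4 hX0.le
    exact_mod_cast h1
  have hval : ∀ t : Fin d → ℤ, (∀ j, |t j| ≤ 2 * (Y j : ℤ)) → ∀ i, |u i + ev W t (n i)| ≤ K := by
    intro t ht i
    have h1 : ∀ j, |(t j : ℝ)| ≤ 2 * X := by
      intro j
      have h2 : |(t j : ℝ)| ≤ 2 * (Y j : ℝ) := by exact_mod_cast ht j
      have h3 := (hY j).2
      linarith
    have h2 := ev_abs2 W t (n i) (2 * X) (P1 * L ^ C) (by positivity) hPL1 (hnP i) h1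
    rw [hPLe] at h2
    have h3 : (W : ℝ) * (d * (2 * X * (Q * L ^ (C * e)))) ≤ L * (d * (2 * X * (Q * L ^ (C * e)))) :=
      mul_le_mul_of_nonneg_right hW (by positivity)
    have h4 := hu i
    have h5 : |((u i + ev W t (n i) : ℤ) : ℝ)| ≤ X * Q * L ^ C + L * (d * (2 * X * (Q * L ^ (C * e)))) := by
      push_cast
      refine (abs_add_le _ _).trans ?_
      linarith
    have h6 : X * Q * L ^ C + L * (d * (2 * X * (Q * L ^ (C * e)))) ≤ X * Q * L ^ C1 := by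
      have g1 : L ^ C ≤ L ^ (C * d + C + 2) := pow_le_pow_right₀ hL1 (by omega)
      have g2 : L ^ (C * e + 1) ≤ L ^ (C * d + C + 2) := by
        apply pow_le_pow_right₀ hL1
        have : C * e ≤ C * d := Nat.mul_le_mul_left C (by omega)
        omega
      have g3 : L ^ C1 = L * L ^ (C * d + C + 2) := by
        rw [hC1, show C * d + C + 3 = 1 + (C * d + C + 2) by ring, pow_add, pow_one]
      have g4 : L * (d * (2 * X * (Q * L ^ (C * e)))) = X * Q * (2 * d * L ^ (C * e + 1)) := by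
        rw [pow_succ]; ring
      rw [g3, g4, ← mul_add]
      apply mul_le_mul_of_nonneg_left _ (by positivity)
      have g5 : 2 * (d : ℝ) * L ^ (C * e + 1) ≤ 2 * d * L ^ (C * d + C + 2) := by gcongr
      have g6 : (2 * (d : ℝ) + 1) * L ^ (C * d + C + 2) ≤ L * L ^ (C * d + C + 2) := by gcongr
      linarith
    have h7 : |((u i + ev W t (n i) : ℤ) : ℝ)| ≤ K := h5.trans (h6.trans hKle)
    exact_mod_cast h7
  -- the window
  have hS'r : (S' : ℝ) = 2 * W * S * (H : ℝ) ^ e := by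
    rw [hS'd, ← he]; push_cast; ring
  have hWr : (1 : ℝ) ≤ W := by exact_mod_cast hW1
  have hSS' : (S : ℝ) ≤ S' := by
    rw [hS'r]
    have h1 : 1 ≤ (H : ℝ) ^ e := one_le_pow₀ hHr
    have h2 : (S : ℝ) * 1 ≤ (S : ℝ) * ((2 * W) * (H : ℝ) ^ e) := by
      apply mul_le_mul_of_nonneg_left _ (by linarith)
      exact one_le_mul_of_one_le_of_one_le (by linarith) h1
    calc (S : ℝ) = S * 1 := (mul_one _).symm
      _ ≤ _ := h2
      _ = _ := by ring
  have hSUP1 : (K : ℝ) ^ (2 / 3 : ℝ) * Real.log K ^ B0 ≤ S' := by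
    refine le_trans ?_ hSS'
    refine le_trans ?_ hS1
    obtain ⟨R1, hR1⟩ : ∃ R1 : ℝ, R1 = (X : ℝ) / (2 * (Q * L ^ C3)) / (2 ^ B0 * L ^ B0) := ⟨_, rfl⟩
    have hR10 : 0 ≤ R1 := by rw [hR1]; positivity
    have q1 : (K : ℝ) ^ 2 ≤ R1 ^ 3 := by
      have h1 : (K : ℝ) ^ 2 ≤ (2 * X * Q * L ^ C1) ^ 2 := pow_le_pow_left₀ hK0.le hK2 _
      refine h1.trans ?_
      rw [hR1, div_div, div_pow, le_div_iff₀ (by positivity)]
      have h2 : (2 * (X : ℝ) * Q * L ^ C1) ^ 2 * (2 * (Q * L ^ C3) * (2 ^ B0 * L ^ B0)) ^ 3 =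
          X ^ 2 * ((32 * 8 ^ B0) * (Q ^ 5 * L ^ (2 * C1 + 3 * B0 + 3 * C3))) := by
        have e8 : (8 : ℝ) ^ B0 = (2 ^ B0) ^ 3 := by
          rw [← pow_mul, mul_comm B0 3, pow_mul]
          norm_num
        rw [e8, pow_add, pow_add, pow_mul' L 2 C1, pow_mul' L 3 B0, pow_mul' L 3 C3]
        ring
      rw [h2]
      have h3 : (32 * 8 ^ B0) * (Q ^ 5 * L ^ (2 * C1 + 3 * B0 + 3 * C3)) ≤ X := by
        refine le_trans ?_ hm5
        have h4 : (32 * 8 ^ B0) * (Q ^ 5 * L ^ (2 * C1 + 3 * B0 + 3 * C3)) ≤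
            L * (Q ^ 5 * L ^ (2 * C1 + 3 * B0 + 3 * C3)) := mul_le_mul_of_nonneg_right hLd2 (by positivity)
        refine h4.trans ?_
        have h5 : L * (Q ^ 5 * L ^ (2 * C1 + 3 * B0 + 3 * C3)) = Q ^ 5 * L ^ (2 * C1 + 3 * B0 + 3 * C3 + 1) := by
          rw [pow_succ L]; ring
        rw [h5]
        exact mul_le_mul_of_nonneg_left (pow_le_pow_right₀ hL1 (by omega)) (by positivity)
      calc (X : ℝ) ^ 2 * ((32 * 8 ^ B0) * (Q ^ 5 * L ^ (2 * C1 + 3 * B0 + 3 * C3))) ≤ X ^ 2 * X :=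
            mul_le_mul_of_nonneg_left h3 (by positivity)
        _ = X ^ 3 := by ring
    have q2 : (K : ℝ) ^ (2 / 3 : ℝ) ≤ R1 := by
      have h1 : ((K : ℝ) ^ 2) ^ (1 / 3 : ℝ) ≤ (R1 ^ 3) ^ (1 / 3 : ℝ) :=
        Real.rpow_le_rpow (by positivity) q1 (by norm_num)
      rw [← Real.rpow_natCast, ← Real.rpow_natCast, ← Real.rpow_mul hK0.le, ← Real.rpow_mul hR10] at h1
      norm_num at h1
      exact h1
    calc (K : ℝ) ^ (2 / 3 : ℝ) * Real.log K ^ B0 ≤ R1 * (2 ^ B0 * L ^ B0) :=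
          mul_le_mul q2 hlKB (by positivity) hR10
      _ = X / (2 * (Q * L ^ C3)) := by
          rw [hR1]
          exact div_mul_cancel₀ _ (by positivity)
  have hSUP2 : (S' : ℝ) * Real.log K ^ B0 ≤ K := by
    refine le_trans ?_ hKle
    rw [hS'r]
    have h1 : (H : ℝ) ^ e ≤ 2 ^ e * L ^ (C * e) := by
      have h := pow_le_pow_left₀ (by positivity : (0 : ℝ) ≤ H) hH2 e
      rwa [mul_pow, ← pow_mul] at h
    have h2 : 2 * (W : ℝ) * S * (H : ℝ) ^ e * Real.log K ^ B0 ≤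
        2 * L * (X / (Q * L ^ C3)) * (2 ^ e * L ^ (C * e)) * (2 ^ B0 * L ^ B0) := by
      gcongr
    refine h2.trans ?_
    have h3 : 2 * L * ((X : ℝ) / (Q * L ^ C3)) * (2 ^ e * L ^ (C * e)) * (2 ^ B0 * L ^ B0) =
        X / Q * ((2 ^ (d + B0) * (L * L ^ (C * e) * L ^ B0)) / L ^ C3) := by
      rw [hde, pow_add, pow_succ]
      field_simp
    rw [h3]
    have h4 : (2 ^ (d + B0) * (L * L ^ (C * e) * L ^ B0)) / L ^ C3 ≤ 1 := by
      rw [div_le_one (hLp _)]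
      have h5 : 2 ^ (d + B0) * (L * L ^ (C * e) * L ^ B0) ≤ L * (L * L ^ (C * e) * L ^ B0) :=
        mul_le_mul_of_nonneg_right hLB (by positivity)
      refine h5.trans ?_
      have h6 : L * (L * L ^ (C * e) * L ^ B0) = L ^ (2 + C * e + B0) := by
        rw [pow_add, pow_add]
        ring
      rw [h6]
      apply pow_le_pow_right₀ hL1
      have : C * e ≤ C * d := Nat.mul_le_mul_left C (by omega)
      omega
    have h7 : (X : ℝ) / Q ≤ X * Q * L ^ C1 := (div_le_self hX0.le hQ1).trans (hXQ.trans hXL1)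
    calc (X : ℝ) / Q * ((2 ^ (d + B0) * (L * L ^ (C * e) * L ^ B0)) / L ^ C3) ≤ X / Q * 1 :=
          mul_le_mul_of_nonneg_left h4 (by positivity)
      _ ≤ _ := by rw [mul_one]; exact h7
  obtain ⟨Bd, hBd0, hBd1, hBd2⟩ := hN0 K (hXN0.trans hXKn) z hz1' hz2' S' hSUP1 hSUP2
  -- the functions
  set φ : Fin k → Fin k → ℤ → ℝ := fun i0 i m => if i < i0 then lamz z m.natAbs else
    if i = i0 then ArithmeticFunction.vonMangoldt m.natAbs - lamz z m.natAbs else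
      ArithmeticFunction.vonMangoldt m.natAbs with hφ
  have hφle : ∀ i0 i, ∀ m : ℤ, |m| ≤ K → |φ i0 i m| ≤ 2 * L := by
    intro i0 i m hm
    have h1 := hLam m hm
    have h2 := hLam0 m.natAbs
    have h3 := hlz m.natAbs
    have h4 := hlz0 m.natAbs
    simp only [hφ]
    rw [abs_le]
    split_ifs <;> constructor <;> linarith
  have hexp : ∀ i0 : Fin k, ∀ v : ℤ, |v| ≤ K → ∀ θ : ℝ,
      ‖∑ m ∈ Icc (-(S' : ℤ)) S', ((φ i0 i0 (v + m) : ℝ) : ℂ) * ee ((m : ℝ) * θ)‖ ≤ Bd v := by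
    intro i0 v hv θ
    have h2 : ∀ m : ℤ, φ i0 i0 m = gz z m.natAbs := by
      intro m
      simp only [hφ, gz]
      rw [if_neg (lt_irrefl _)]
      simp
    simp only [h2]
    exact hBd1 v hv θ
  obtain ⟨P, hP⟩ : ∃ P : ℝ, P = ∏ j, (Y j : ℝ) := ⟨_, rfl⟩
  have hP0 : 0 ≤ P := by rw [hP]; exact prod_nonneg fun j _ => Nat.cast_nonneg _
  have hterm : ∀ i0 : Fin k, |∑ t ∈ box Y, ∏ i, φ i0 i (u i + ev W t (n i))| ≤
      P * (4 ^ k * 2 ^ (e + 3) / L ^ (U + 2) + d * 2 ^ (e + k + 2) / L ^ (U + 2)) := by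
    intro i0
    have hn0 : 1 ≤ n i0 := by have := (hnC i0).1; omega
    have t1 := hTERM d k (by omega) hk n hn N H hH1 hnN hnH u W hW1 Y K Ym hYm hval (φ i0) (2 * L) (by linarith)
      (fun i m hm => hφle i0 i m hm) i0 S S' Bd hSpos (le_refl _) hBd0 (hexp i0) hSN
    have hY0 : n i0 ^ (d - 1) ≤ Y ⟨0, by omega⟩ := by
      have h1 : ((n i0 : ℝ)) ^ (d - 1) ≤ Q * L ^ (C * e) := by
        rw [← hPLe]
        exact pow_le_pow_left₀ (Nat.cast_nonneg _) (hnP i0) _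
      have h2 : Q * L ^ (C * e) ≤ X / L ^ C := by
        rw [le_div_iff₀ (hLp _), mul_assoc, ← pow_add]
        have h3 := hQL 1 (C * e + C) (by norm_num) (by
          have : C * e ≤ C * d := Nat.mul_le_mul_left C (by omega)
          omega)
        rwa [pow_one] at h3
      have h4 : ((n i0 ^ (d - 1) : ℕ) : ℝ) ≤ (Y ⟨0, by omega⟩ : ℝ) := by
        push_cast
        exact h1.trans (h2.trans (hY _).1)
      exact_mod_cast h4
    have t2 := hDIST d hd Y W (n i0) hW1 hn0 hY0 (u i0) K Bd hBd0 (by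
      intro t ht
      apply hval t _ i0
      intro j
      unfold Pool.Agent.Run7.h385.PO.box at ht
      rw [Fintype.mem_piFinset] at ht
      have h1 := ht j
      rw [mem_Ico] at h1
      rw [abs_of_nonneg h1.1]
      have h2 : (0 : ℤ) ≤ Y j := Int.natCast_nonneg _
      linarith [h1.2])
    rw [← hP] at t1 t2
    have hYd := (hY ⟨d - 1, by omega⟩).1
    have hYd0 : (0 : ℝ) < Y ⟨d - 1, by omega⟩ := lt_of_lt_of_le (by positivity) hYd
    have hnd : Q ≤ (n i0 : ℝ) ^ (d - 1) := by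
      rw [hQ, ← he]
      apply pow_le_pow_left₀ (by linarith)
      rw [hP1]
      exact_mod_cast (hnC i0).1
    have hnd0 : 0 < (n i0 : ℝ) ^ (d - 1) := by linarith
    have t3 : ∑ t ∈ box Y, Bd (u i0 + ev W t (n i0)) ≤
        P * (2 * ((K : ℝ) * S' / Real.log K ^ U') / ((Y ⟨d - 1, by omega⟩ : ℝ) * (n i0 : ℝ) ^ (d - 1))) := by
      rw [← mul_div_assoc, le_div_iff₀ (mul_pos hYd0 hnd0)]
      refine t2.trans ?_
      have h1 : 2 * P * ∑ v ∈ Icc (-(K : ℤ)) K, Bd v ≤ 2 * P * ((K : ℝ) * S' / Real.log K ^ U') :=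
        mul_le_mul_of_nonneg_left hBd2 (by positivity)
      refine h1.trans (le_of_eq ?_)
      ring
    have t4 := num_main e k C C1 U U' L X Q K S S' W H (Real.log K) (Y ⟨d - 1, by omega⟩ : ℝ) ((n i0 : ℝ) ^ (d - 1))
      hL1 hX0 hQ0 hU' (by linarith) hK0.le hK2 (by linarith) hW (by linarith) hH2 hS'r hlKge hYd hnd
    have t5 := num_shift e k C C3 U L X Q S N Ym P1 hL1 hX0 hQ0 (by rw [hC3, hde, mul_add]; omega) (by linarith) hS2
      hQ.symm (by linarith) (Nat.cast_nonneg _) hNle hYmge d (by linarith)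
    rw [← he] at t1
    calc _ ≤ (2 * L) ^ (2 * k) / S * (∑ t ∈ box Y, Bd (u i0 + ev W t (n i0))) +
          2 * d * (2 * S * ((N : ℝ) + 1) ^ e / Ym) * (2 * L) ^ k * P := t1
      _ ≤ (2 * L) ^ (2 * k) / S *
          (P * (2 * ((K : ℝ) * S' / Real.log K ^ U') / ((Y ⟨d - 1, by omega⟩ : ℝ) * (n i0 : ℝ) ^ (d - 1)))) +
          d * 2 ^ (e + k + 2) / L ^ (U + 2) * P := by
            apply add_le_add
            · exact mul_le_mul_of_nonneg_left t3 (by positivity)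
            · exact mul_le_mul_of_nonneg_right t5 hP0
      _ = P * ((2 * L) ^ (2 * k) / S * (2 * ((K : ℝ) * S' / Real.log K ^ U') /
            ((Y ⟨d - 1, by omega⟩ : ℝ) * (n i0 : ℝ) ^ (d - 1)))) + d * 2 ^ (e + k + 2) / L ^ (U + 2) * P := by ring
      _ ≤ P * (4 ^ k * 2 ^ (e + 3) / L ^ (U + 2)) + d * 2 ^ (e + k + 2) / L ^ (U + 2) * P := by
            apply add_le_add _ le_rfl
            exact mul_le_mul_of_nonneg_left t4 hP0
      _ = _ := by ring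
  have hsum : ∑ t ∈ box Y, (∏ i, ArithmeticFunction.vonMangoldt (u i + ev W t (n i)).natAbs -
        ∏ i, lamz z (u i + ev W t (n i)).natAbs) =
      ∑ i0 : Fin k, ∑ t ∈ box Y, ∏ i, φ i0 i (u i + ev W t (n i)) := by
    rw [sum_comm]
    refine sum_congr rfl fun t _ => ?_
    rw [telesc]
  rw [hsum, ← hP]
  refine (abs_sum_le_sum_abs _ _).trans ((sum_le_sum fun i0 _ => hterm i0).trans ?_)
  rw [sum_const, card_univ, Fintype.card_fin, nsmul_eq_mul]
  have hfin : (k : ℝ) * (4 ^ k * 2 ^ (e + 3) / L ^ (U + 2) + d * 2 ^ (e + k + 2) / L ^ (U + 2)) ≤ 1 / L ^ U := by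
    have t4 : (k : ℝ) * (4 ^ k * 2 ^ (e + 3) / L ^ (U + 2) + d * 2 ^ (e + k + 2) / L ^ (U + 2)) =
        ((k : ℝ) * (4 ^ k * 2 ^ (e + 3) + d * 2 ^ (e + k + 2))) / L ^ (U + 2) := by ring
    have hLU : 0 < L ^ U := by positivity
    have e5 : L ^ (U + 2) = L ^ U * (L * L) := by rw [pow_add]; ring
    rw [t4, div_le_div_iff₀ (by positivity) (by positivity), one_mul, e5]
    have h1 := mul_le_mul_of_nonneg_right hLc hLU.le
    have h2 : L * L ^ U ≤ L ^ U * (L * L) := by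
      rw [mul_comm L (L ^ U)]
      exact mul_le_mul_of_nonneg_left (le_mul_of_one_le_left hL0.le hL1) hLU.le
    linarith
  calc (k : ℝ) * (P * (4 ^ k * 2 ^ (e + 3) / L ^ (U + 2) + d * 2 ^ (e + k + 2) / L ^ (U + 2))) =
      P * ((k : ℝ) * (4 ^ k * 2 ^ (e + 3) / L ^ (U + 2) + d * 2 ^ (e + k + 2) / L ^ (U + 2))) := by ring
    _ ≤ P * (1 / L ^ U) := mul_le_mul_of_nonneg_left hfin hP0
    _ = P / L ^ U := by ring

end Pool.Agent.Run7.h376.PQ
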