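import Pool.Agent.Run7.h385.PQ.Stm
import Pool.Agent.Run7.h215.PO.MOM

set_option autoImplicit false

/-! Piece JM of project PQ (helper385): joint factorial moments over two disjoint sets of arguments. -/

namespace Pool.Agent.Run7.h376.PQ

open Finset
open Pool.Agent.H373R2.T7
open Pool.Agent.Run7.h385.PO
open Pool.Agent.Run7.h385.PQ
open Pool.Agent.Run7.h215.PO

theorem append_inj {k k' : ℕ} {T T' : Finset ℕ} (hd : Disjoint T T') {n : Fin k → ℕ} {n' : Fin k' → ℕ}
    (hn : n ∈ inj k T) (hn' : n' ∈ inj k' T') : Function.Injective (Fin.append n n') := by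
  rw [mem_inj] at hn hn'
  rw [disjoint_left] at hd
  intro i j h
  induction i using Fin.addCases with
  | left i =>
    induction j using Fin.addCases with
    | left j =>
      rw [Fin.append_left, Fin.append_left] at h
      rw [hn.2 h]
    | right j =>
      rw [Fin.append_left, Fin.append_right] at h
      exact absurd (h ▸ hn'.1 j) (hd (hn.1 i))
  | right i =>
    induction j using Fin.addCases with
    | left j =>
      rw [Fin.append_left, Fin.append_right] at h
      exact absurd (h.symm ▸ hn'.1 i) (fun h2 => hd (hn.1 j) (h ▸ hn'.1 i))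
    | right j =>
      rw [Fin.append_right, Fin.append_right] at h
      rw [hn'.2 h]

theorem append_forall {k k' : ℕ} (n : Fin k → ℕ) (n' : Fin k' → ℕ) (Q : ℕ → Prop) :
    (∀ i, Q (Fin.append n n' i)) ↔ (∀ i, Q (n i)) ∧ ∀ i, Q (n' i) := by
  constructor
  · intro h
    refine ⟨fun i => ?_, fun i => ?_⟩
    · have := h (Fin.castAdd k' i)
      rwa [Fin.append_left] at this
    · have := h (Fin.natAdd k i)
      rwa [Fin.append_right] at this
  · rintro ⟨h1, h2⟩ i
    induction i using Fin.addCases with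
    | left i => rw [Fin.append_left]; exact h1 i
    | right i => rw [Fin.append_right]; exact h2 i

theorem two_desc (k k' : ℕ) (T T' : Finset ℕ) (Q : ℕ → Prop) [DecidablePred Q] :
    (((T.filter Q).card.descFactorial k : ℕ) : ℝ) * (((T'.filter Q).card.descFactorial k' : ℕ) : ℝ) =
      ∑ n ∈ inj k T, ∑ n' ∈ inj k' T', (if ∀ i, Q (Fin.append n n' i) then (1 : ℝ) else 0) := by
  classical
  rw [descFactorial_filter, descFactorial_filter]
  push_cast
  rw [sum_mul_sum]
  refine sum_congr rfl fun n _ => sum_congr rfl fun n' _ => ?_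
  by_cases h1 : ∀ i, Q (n i)
  · by_cases h2 : ∀ i, Q (n' i)
    · rw [if_pos h1, if_pos h2, if_pos ((append_forall n n' Q).2 ⟨h1, h2⟩), one_mul]
    · rw [if_neg h2, if_neg (fun h => h2 ((append_forall n n' Q).1 h).2), mul_zero]
  · rw [if_neg h1, if_neg (fun h => h1 ((append_forall n n' Q).1 h).1), zero_mul]

theorem t_JM (hP : S_PRIMES2) : S_JM := by
  classical
  intro d g k k' C hd hk
  obtain ⟨B, hB⟩ := hP d (k + k') C hd hk
  refine ⟨B, fun ε hε => ?_⟩
  obtain ⟨δ, hδ, hδε⟩ := exists_delta g ε hε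
  obtain ⟨X0, hX0⟩ := hB δ hδ
  refine ⟨max X0 1, fun X hX m hm T T' hdis hT hT' u hu Y hY => ?_⟩
  have hX' := hX0 X ((le_max_left _ _).trans hX) m hm
  have hX1 : 1 ≤ X := (le_max_right _ _).trans hX
  have hrho : 0 ≤ rho2 X d m := by
    unfold rho2 lg
    have h1 : 0 < (Vz (ww X))⁻¹ := inv_pos.2 (Vz_pos _)
    have h2 : 0 ≤ Real.log ((X : ℝ) * ((m : ℝ) + 1) ^ (d - 1)) := by
      apply Real.log_nonneg
      have h3 : (1 : ℝ) ≤ X := by exact_mod_cast hX1
      have h4 : (1 : ℝ) ≤ ((m : ℝ) + 1) ^ (d - 1) := one_le_pow₀ (by linarith [(Nat.cast_nonneg m : (0 : ℝ) ≤ m)])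
      exact one_le_mul_of_one_le_of_one_le h3 h4
    positivity
  -- the sum as a sum over injective tuples
  have hswap : (∑ t ∈ Fintype.piFinset (fun l => box (Y l)),
        (((pc (WW X) u t T).descFactorial k : ℕ) : ℝ) * (((pc (WW X) u t T').descFactorial k' : ℕ) : ℝ)) =
      ∑ n ∈ inj k T, ∑ n' ∈ inj k' T', ∏ l, (((box (Y l)).filter
        (fun t => ∀ i, (u l (Fin.append n n' i) + ev (WW X) t (Fin.append n n' i)).natAbs.Prime)).card : ℝ) := by
    have h1 : ∀ t : Fin g → Fin d → ℤ,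
        (((pc (WW X) u t T).descFactorial k : ℕ) : ℝ) * (((pc (WW X) u t T').descFactorial k' : ℕ) : ℝ) =
        ∑ n ∈ inj k T, ∑ n' ∈ inj k' T', (if ∀ i, ∀ l, (u l (Fin.append n n' i) +
          ev (WW X) (t l) (Fin.append n n' i)).natAbs.Prime then (1 : ℝ) else 0) := by
      intro t
      unfold pc
      rw [two_desc k k' T T' (fun n => ∀ l, (u l n + ev (WW X) (t l) n).natAbs.Prime)]
    rw [sum_congr rfl fun t _ => h1 t, sum_comm]
    refine sum_congr rfl fun n _ => ?_
    rw [sum_comm]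
    refine sum_congr rfl fun n' _ => ?_
    rw [← Nat.cast_prod, ← Fintype.card_piFinset, ← sum_filter, sum_const, nsmul_eq_mul, mul_one]
    congr 2
    ext t
    rw [mem_filter, Fintype.mem_piFinset, Fintype.mem_piFinset]
    constructor
    · rintro ⟨h1, h2⟩ l
      exact mem_filter.2 ⟨h1 l, fun i => h2 i l⟩
    · intro h
      exact ⟨fun l => (mem_filter.1 (h l)).1, fun i l => (mem_filter.1 (h l)).2 i⟩
  have hmain : (∏ l, ∏ j, (Y l j : ℝ)) * (((T.card.descFactorial k : ℕ) : ℝ) * ((T'.card.descFactorial k' : ℕ) : ℝ)) *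
      rho2 X d m ^ (g * (k + k')) =
      ∑ n ∈ inj k T, ∑ n' ∈ inj k' T', ∏ l : Fin g, ((∏ j, (Y l j : ℝ)) * rho2 X d m ^ (k + k')) := by
    rw [sum_const, sum_const, card_inj, card_inj, nsmul_eq_mul, nsmul_eq_mul, prod_mul_distrib, prod_const, card_univ,
      Fintype.card_fin, ← pow_mul, mul_comm (k + k') g]
    ring
  rw [hswap, hmain, ← sum_sub_distrib]
  refine (abs_sum_le_sum_abs _ _).trans ?_
  rw [mul_sum]
  refine sum_le_sum fun n hn => ?_
  rw [← sum_sub_distrib]
  refine (abs_sum_le_sum_abs _ _).trans ?_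
  rw [mul_sum]
  refine sum_le_sum fun n' hn' => ?_
  have hinj := append_inj hdis hn hn'
  rw [mem_inj] at hn hn'
  have hb : ∀ i, m < Fin.append n n' i ∧ ((Fin.append n n' i : ℕ) : ℝ) ≤ m + Real.log X ^ C :=
    (append_forall n n' (fun n => m < n ∧ (n : ℝ) ≤ m + Real.log X ^ C)).2
      ⟨fun i => hT _ (hn.1 i), fun i => hT' _ (hn'.1 i)⟩
  have hmem : ∀ i, Fin.append n n' i ∈ T ∨ Fin.append n n' i ∈ T' :=
    (append_forall n n' (fun n => n ∈ T ∨ n ∈ T')).2 ⟨fun i => Or.inl (hn.1 i), fun i => Or.inr (hn'.1 i)⟩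
  have hM : ∀ l : Fin g, 0 ≤ (∏ j, (Y l j : ℝ)) * rho2 X d m ^ (k + k') := fun l => by positivity
  have h1 := prod_close (fun l => (((box (Y l)).filter
        (fun t => ∀ i, (u l (Fin.append n n' i) + ev (WW X) t (Fin.append n n' i)).natAbs.Prime)).card : ℝ))
    (fun l => (∏ j, (Y l j : ℝ)) * rho2 X d m ^ (k + k')) δ hδ.le (fun l => Nat.cast_nonneg _) hM
    (fun l => hX' (Fin.append n n') hinj hb (fun i => u l (Fin.append n n' i))
      (fun i => (hu l _ (hmem i)).1) (fun i => (hu l _ (hmem i)).2) (Y l) (fun j => hY l j)) univ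
  rw [card_univ, Fintype.card_fin] at h1
  refine h1.trans ?_
  have h2 : 0 ≤ ∏ l : Fin g, ((∏ j, (Y l j : ℝ)) * rho2 X d m ^ (k + k')) := prod_nonneg fun l _ => hM l
  gcongr

end Pool.Agent.Run7.h376.PQ
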